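import Pool.Agent.helper78.EQ.Spec

/-!
# Project EQ, module JNB: polar coordinates
-/

set_option autoImplicit false

open Complex MeasureTheory Set Metric

namespace Pool.Agent.EQ

/-- sets of angles -/
theorem helper2_angles (T : Set ℝ) (hT : MeasurableSet T)
    (hper : ∀ θ : ℝ, θ + 2 * Real.pi ∈ T ↔ θ ∈ T) :
    volume (Ioc 0 (2 * Real.pi) ∩ T) ≤ volume (Ioo (-Real.pi) Real.pi ∩ T) := by
  have hpi := Real.pi_pos
  have h1 : Ioc 0 (2 * Real.pi) ∩ T ⊆ (Ioc 0 Real.pi ∩ T) ∪ (Ioc Real.pi (2 * Real.pi) ∩ T) := by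
    rintro θ ⟨h, hθ⟩
    rcases le_or_gt θ Real.pi with h2 | h2
    · exact Or.inl ⟨⟨h.1, h2⟩, hθ⟩
    · exact Or.inr ⟨⟨h2, h.2⟩, hθ⟩
  have h2 : volume (Ioc Real.pi (2 * Real.pi) ∩ T) = volume (Ioc (-Real.pi) 0 ∩ T) := by
    rw [← measure_preimage_add_right volume (2 * Real.pi) (Ioc Real.pi (2 * Real.pi) ∩ T)]
    congr 1
    ext θ
    simp only [mem_preimage, mem_inter_iff, mem_Ioc, hper]
    constructor
    · rintro ⟨⟨h3, h4⟩, h5⟩
      exact ⟨⟨by linarith, by linarith⟩, h5⟩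
    · rintro ⟨⟨h3, h4⟩, h5⟩
      exact ⟨⟨by linarith, by linarith⟩, h5⟩
  have h3 : volume (Ioc 0 Real.pi ∩ T) + volume (Ioc (-Real.pi) 0 ∩ T) =
      volume (Ioc (-Real.pi) Real.pi ∩ T) := by
    rw [← measure_union]
    · congr 1
      ext θ
      simp only [mem_union, mem_inter_iff, mem_Ioc]
      constructor
      · rintro (⟨⟨h3, h4⟩, h5⟩ | ⟨⟨h3, h4⟩, h5⟩)
        · exact ⟨⟨by linarith, h4⟩, h5⟩
        · exact ⟨⟨h3, by linarith⟩, h5⟩
      · rintro ⟨⟨h3, h4⟩, h5⟩
        rcases le_or_gt θ 0 with h6 | h6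
        · exact Or.inr ⟨⟨h3, h6⟩, h5⟩
        · exact Or.inl ⟨⟨h6, h4⟩, h5⟩
    · rw [Set.disjoint_left]
      rintro θ ⟨h3, _⟩ ⟨h4, _⟩
      exact absurd h3.1 (not_lt.2 h4.2)
    · exact measurableSet_Ioc.inter hT
  have h4 : volume (Ioc (-Real.pi) Real.pi ∩ T) ≤ volume (Ioo (-Real.pi) Real.pi ∩ T) := by
    have h5 : Ioc (-Real.pi) Real.pi ∩ T ⊆ (Ioo (-Real.pi) Real.pi ∩ T) ∪ {Real.pi} := by
      rintro θ ⟨h, hθ⟩
      rcases lt_or_eq_of_le h.2 with h6 | h6
      · exact Or.inl ⟨⟨h.1, h6⟩, hθ⟩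
      · exact Or.inr h6
    refine (measure_mono h5).trans ((measure_union_le _ _).trans ?_)
    rw [Real.volume_singleton, add_zero]
  calc volume (Ioc 0 (2 * Real.pi) ∩ T)
      ≤ volume (Ioc 0 Real.pi ∩ T) + volume (Ioc Real.pi (2 * Real.pi) ∩ T) :=
        (measure_mono h1).trans (measure_union_le _ _)
    _ = volume (Ioc (-Real.pi) Real.pi ∩ T) := by rw [h2, h3]
    _ ≤ _ := h4

theorem JNB : JNB_stmt := by
  intro E c Ra Rb α hE hRa hRab hα
  have hcont : Continuous fun p : ℝ × ℝ => circleMap c p.1 p.2 := by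
    unfold circleMap
    fun_prop
  set E' : Set ℂ := E ∩ closedBall c Rb with hE'
  have hE'm : MeasurableSet E' := hE.inter isClosed_closedBall.measurableSet
  have h1 : volume E' = ∫⁻ p : ℂ, E'.indicator (fun _ => (1 : ENNReal)) (c + p) := by
    rw [lintegral_add_left_eq_self (μ := (volume : Measure ℂ))
      (E'.indicator (fun _ => (1 : ENNReal))) c, lintegral_indicator hE'm]
    simp
  rw [h1, ← Complex.lintegral_comp_polarCoord_symm]
  have hsub : Ioo Ra Rb ×ˢ Ioo (-Real.pi) Real.pi ⊆ polarCoord.target := by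
    rw [polarCoord_target]
    exact prod_mono (fun R hR => lt_trans hRa hR.1) (subset_refl _)
  set Tp : Set (ℝ × ℝ) := {p | circleMap c p.1 p.2 ∈ E} with hTp
  have hTpm : MeasurableSet Tp := hcont.measurable hE
  have h2 : ∫⁻ p in Ioo Ra Rb ×ˢ Ioo (-Real.pi) Real.pi,
      ENNReal.ofReal Ra * Tp.indicator (fun _ => (1 : ENNReal)) p ≤
      ∫⁻ p in polarCoord.target, ENNReal.ofReal p.1 •
        E'.indicator (fun _ => (1 : ENNReal)) (c + Complex.polarCoord.symm p) := by
    refine le_trans ?_ (lintegral_mono_set hsub)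
    apply setLIntegral_mono' (measurableSet_Ioo.prod measurableSet_Ioo)
    intro p hp
    rw [smul_eq_mul]
    have hp1 : Ra < p.1 := hp.1.1
    have hp2 : p.1 < Rb := hp.1.2
    apply mul_le_mul' (ENNReal.ofReal_le_ofReal hp1.le)
    by_cases hpT : p ∈ Tp
    · have h3 : c + Complex.polarCoord.symm p = circleMap c p.1 p.2 := by
        rw [Complex.polarCoord_symm_apply, circleMap, Complex.exp_mul_I]
        push_cast
        rfl
      have h4 : c + Complex.polarCoord.symm p ∈ E' := by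
        rw [h3]
        refine ⟨hpT, ?_⟩
        have h5 := circleMap_mem_sphere c (show 0 ≤ p.1 by linarith) p.2
        rw [mem_sphere] at h5
        rw [mem_closedBall, h5]
        exact hp2.le
      rw [indicator_of_mem hpT, indicator_of_mem h4]
    · rw [indicator_of_notMem hpT]
      exact bot_le
  refine le_trans ?_ h2
  have hmeas : Measurable fun p : ℝ × ℝ =>
      ENNReal.ofReal Ra * Tp.indicator (fun _ => (1 : ENNReal)) p :=
    (measurable_const.indicator hTpm).const_mul _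
  rw [Measure.volume_eq_prod, setLIntegral_prod _ hmeas.aemeasurable]
  have h3 : ∀ R ∈ Ioo Ra Rb, ENNReal.ofReal Ra * α ≤
      ∫⁻ θ in Ioo (-Real.pi) Real.pi,
        ENNReal.ofReal Ra * Tp.indicator (fun _ => (1 : ENNReal)) (R, θ) := by
    intro R hR
    have hTR : MeasurableSet {θ : ℝ | circleMap c R θ ∈ E} :=
      (continuous_circleMap c R).measurable hE
    have h4 : ∫⁻ θ in Ioo (-Real.pi) Real.pi,
        ENNReal.ofReal Ra * Tp.indicator (fun _ => (1 : ENNReal)) (R, θ) =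
        ENNReal.ofReal Ra * volume (Ioo (-Real.pi) Real.pi ∩ {θ : ℝ | circleMap c R θ ∈ E}) := by
      have hm1 : Measurable fun θ : ℝ => Tp.indicator (fun _ => (1 : ENNReal)) (R, θ) :=
        (measurable_const.indicator hTpm).comp measurable_prodMk_left
      rw [lintegral_const_mul _ hm1]
      congr 1
      have h5 : ∀ θ : ℝ, Tp.indicator (fun _ => (1 : ENNReal)) (R, θ) =
          {θ : ℝ | circleMap c R θ ∈ E}.indicator (fun _ => (1 : ENNReal)) θ := by
        intro θ
        by_cases h : circleMap c R θ ∈ E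
        · rw [indicator_of_mem (show (R, θ) ∈ Tp from h),
            indicator_of_mem (show θ ∈ {θ : ℝ | circleMap c R θ ∈ E} from h)]
        · rw [indicator_of_notMem (show (R, θ) ∉ Tp from h),
            indicator_of_notMem (show θ ∉ {θ : ℝ | circleMap c R θ ∈ E} from h)]
      simp_rw [h5]
      rw [lintegral_indicator hTR]
      rw [Measure.restrict_restrict hTR, inter_comm]
      simp
    rw [h4]
    apply mul_le_mul' le_rfl
    refine (hα R hR.1 hR.2).trans ?_
    have h6 : {θ : ℝ | θ ∈ Ioc 0 (2 * Real.pi) ∧ circleMap c R θ ∈ E} =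
        Ioc 0 (2 * Real.pi) ∩ {θ : ℝ | circleMap c R θ ∈ E} := rfl
    rw [h6]
    apply helper2_angles _ hTR
    intro θ
    rw [mem_ofPred_eq, mem_ofPred_eq, periodic_circleMap c R θ]
  calc ENNReal.ofReal (Ra * (Rb - Ra)) * α
      = ENNReal.ofReal Ra * α * volume (Ioo Ra Rb) := by
        rw [ENNReal.ofReal_mul hRa.le, Real.volume_Ioo]
        ring
    _ = ∫⁻ _ in Ioo Ra Rb, ENNReal.ofReal Ra * α := by
        rw [setLIntegral_const]
    _ ≤ _ := setLIntegral_mono' measurableSet_Ioo h3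

end Pool.Agent.EQ
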