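import Pool.Agent.helper78.EQ.Spec

/-!
# Project EQ, module SHF: shift of the line of integration
-/

set_option autoImplicit false

open Complex MeasureTheory Set Metric

namespace Pool.Agent.EQ

theorem helper2_exp_neg_abs : Integrable (fun u : ℝ => Real.exp (-|u|)) := by
  have h1 : IntegrableOn (fun u : ℝ => Real.exp (-|u|)) (Iic 0) := by
    refine (integrableOn_exp_Iic 0).congr_fun ?_ measurableSet_Iic
    intro u hu
    have hu' : u ≤ 0 := hu
    simp only [abs_of_nonpos hu', neg_neg]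
  have h2 : IntegrableOn (fun u : ℝ => Real.exp (-|u|)) (Ioi 0) := by
    refine (integrableOn_exp_neg_Ioi 0).congr_fun ?_ measurableSet_Ioi
    intro u hu
    have hu' : 0 < u := hu
    simp only [abs_of_pos hu']
  have := h1.union h2
  rwa [Iic_union_Ioi, integrableOn_univ] at this

theorem helper2_int_Iic (U : ℝ) (hU : 0 ≤ U) :
    ∫ u in Iic (-U), Real.exp (-|u|) = Real.exp (-U) := by
  rw [← integral_exp_Iic]
  apply setIntegral_congr_fun measurableSet_Iic
  intro u hu
  have hu' : u ≤ -U := hu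
  simp only [abs_of_nonpos (show u ≤ 0 by linarith), neg_neg]

theorem helper2_int_Ioi (U : ℝ) (hU : 0 ≤ U) :
    ∫ u in Ioi U, Real.exp (-|u|) = Real.exp (-U) := by
  rw [← integral_exp_neg_Ioi]
  apply setIntegral_congr_fun measurableSet_Ioi
  intro u hu
  have hu' : U < u := hu
  simp only [abs_of_pos (show 0 < u by linarith)]

theorem helper2_int_all : ∫ u : ℝ, Real.exp (-|u|) = 2 := by
  rw [← intervalIntegral.integral_Iic_add_Ioi (b := 0) helper2_exp_neg_abs.integrableOn
    helper2_exp_neg_abs.integrableOn]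
  have h1 := helper2_int_Iic 0 le_rfl
  have h2 := helper2_int_Ioi 0 le_rfl
  rw [neg_zero] at h1
  rw [h1, h2]
  simp
  norm_num

theorem helper2_int_mid (U : ℝ) (hU : 0 ≤ U) :
    ∫ u in (-U)..U, Real.exp (-|u|) ≤ 2 := by
  rw [← helper2_int_all, intervalIntegral.integral_of_le (by linarith)]
  exact setIntegral_le_integral helper2_exp_neg_abs
    (Filter.Eventually.of_forall fun u => (Real.exp_pos _).le)

theorem SHF (hGAM : GAM_stmt) (hCAH : CAH_stmt) : SHF_stmt := by
  intro x₀ hx₀ hx₀2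
  obtain ⟨C, hC, hG⟩ := hGAM x₀ hx₀
  refine ⟨4 * C, by linarith, ?_⟩
  intro a D x t U V W N hx0x hx2 hU hN hV ha0 hsum hW hD2 hD
  have hN0 : (0 : ℝ) < N := by linarith
  have hU0 : (0 : ℝ) ≤ U := by linarith
  have hxpos : 0 < x := by linarith
  set f : ℝ → ℂ := fun u => Complex.Gamma ((2 : ℂ) + u * I) *
    (N : ℂ) ^ ((2 : ℂ) + u * I) * Ds a ((2 : ℂ) + (t + u) * I) with hf
  set G : ℂ → ℂ := fun w => Complex.Gamma w * (N : ℂ) ^ w * D (w + t * I) with hGdef
  have hW0 : 0 ≤ W := by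
    refine le_trans (tsum_nonneg fun n => ?_) hW
    positivity
  -- the Dirichlet series on the line 2
  have hterm : ∀ (s : ℂ), s.re = 2 → ∀ n : ℕ,
      ‖a n * (n : ℂ) ^ (-s)‖ ≤ ‖a n‖ * (n : ℝ) ^ (-(2 : ℝ)) := by
    intro s hs n
    rcases Nat.eq_zero_or_pos n with hn | hn
    · subst hn
      rw [ha0]
      simp
    · rw [norm_mul, Complex.norm_natCast_cpow_of_pos hn]
      rw [Complex.neg_re, hs]
  have hDs : ∀ s : ℂ, s.re = 2 → ‖Ds a s‖ ≤ W := by
    intro s hs
    refine le_trans ?_ hW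
    exact tsum_of_norm_bounded hsum.hasSum (hterm s hs)
  have hline : ∀ u : ℝ, ((2 : ℂ) + (t + u) * I).re = 2 := by
    intro u
    simp
  have hre2 : ∀ u : ℝ, ((2 : ℂ) + u * I).re = 2 := by
    intro u
    simp
  have hcDs : Continuous fun u : ℝ => Ds a ((2 : ℂ) + (t + u) * I) := by
    unfold Ds
    refine continuous_tsum (u := fun n : ℕ => ‖a n‖ * (n : ℝ) ^ (-(2 : ℝ))) ?_ hsum ?_
    · intro n
      rcases Nat.eq_zero_or_pos n with hn | hn
      · subst hn
        simp only [ha0, zero_mul]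
        exact continuous_const
      · refine continuous_const.mul ?_
        have hn0 : (n : ℂ) ≠ 0 := by exact_mod_cast hn.ne'
        refine Continuous.const_cpow ?_ (Or.inl hn0)
        fun_prop
    · intro n u
      exact hterm _ (hline u) n
  have hΓdiff : ∀ w : ℂ, 0 < w.re → DifferentiableAt ℂ Complex.Gamma w := by
    intro w hw
    apply Complex.differentiableAt_Gamma
    intro m hm
    rw [hm] at hw
    simp at hw
    have : (0 : ℝ) ≤ m := Nat.cast_nonneg m
    linarith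
  have hNc : (N : ℂ) ≠ 0 := by exact_mod_cast hN0.ne'
  have hcf : Continuous f := by
    rw [hf]
    refine (Continuous.mul ?_ ?_).mul hcDs
    · rw [continuous_iff_continuousAt]
      intro u
      have h1 : ContinuousAt Complex.Gamma ((2 : ℂ) + u * I) :=
        (hΓdiff _ (by rw [hre2]; norm_num)).continuousAt
      exact ContinuousAt.comp (f := fun u : ℝ => (2 : ℂ) + u * I) h1 (by fun_prop)
    · exact Continuous.const_cpow (by fun_prop) (Or.inl hNc)
  have hfb : ∀ u : ℝ, ‖f u‖ ≤ C * N ^ 2 * W * Real.exp (-|u|) := by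
    intro u
    rw [hf]
    simp only
    rw [norm_mul, norm_mul, Complex.norm_cpow_eq_rpow_re_of_pos hN0, hre2]
    have h1 := hG 2 u (by linarith) (by norm_num)
    have h2 := hDs _ (hline u)
    push_cast at h1
    have h3 : N ^ (2 : ℝ) = N ^ 2 := by norm_cast
    rw [h3]
    calc ‖Complex.Gamma ((2 : ℂ) + u * I)‖ * N ^ 2 * ‖Ds a ((2 : ℂ) + (t + u) * I)‖
        ≤ (C * Real.exp (-|u|)) * N ^ 2 * W := by gcongr
      _ = C * N ^ 2 * W * Real.exp (-|u|) := by ring
  have hfi : Integrable f :=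
    Integrable.mono' (helper2_exp_neg_abs.const_mul (C * N ^ 2 * W))
      hcf.aestronglyMeasurable (Filter.Eventually.of_forall hfb)
  have hS : S a N t = (1 / (2 * (Real.pi : ℂ))) * ∫ u : ℝ, f u := hCAH a N t hN0 ha0 hsum
  -- splitting
  have hsplit : ∫ u : ℝ, f u = (∫ u in Iic (-U), f u) + ((∫ u in (-U)..U, f u) +
      ∫ u in Ioi U, f u) := by
    rw [intervalIntegral.integral_interval_add_Ioi hfi.integrableOn hfi.integrableOn,
      intervalIntegral.integral_Iic_add_Ioi hfi.integrableOn hfi.integrableOn]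
  have htail1 : ‖∫ u in Iic (-U), f u‖ ≤ C * N ^ 2 * W * Real.exp (-U) := by
    calc ‖∫ u in Iic (-U), f u‖ ≤ ∫ u in Iic (-U), C * N ^ 2 * W * Real.exp (-|u|) :=
          norm_integral_le_of_norm_le (helper2_exp_neg_abs.const_mul _).integrableOn
            (Filter.Eventually.of_forall hfb)
      _ = C * N ^ 2 * W * Real.exp (-U) := by
          rw [integral_const_mul, helper2_int_Iic U hU0]
  have htail2 : ‖∫ u in Ioi U, f u‖ ≤ C * N ^ 2 * W * Real.exp (-U) := by
    calc ‖∫ u in Ioi U, f u‖ ≤ ∫ u in Ioi U, C * N ^ 2 * W * Real.exp (-|u|) :=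
          norm_integral_le_of_norm_le (helper2_exp_neg_abs.const_mul _).integrableOn
            (Filter.Eventually.of_forall hfb)
      _ = C * N ^ 2 * W * Real.exp (-U) := by
          rw [integral_const_mul, helper2_int_Ioi U hU0]
  -- the rectangle
  have hGd : ∀ w : ℂ, x ≤ w.re → w.re ≤ 2 → |w.im| ≤ U → DifferentiableAt ℂ G w ∧
      ‖G w‖ ≤ C * Real.exp (-|w.im|) * N ^ w.re * V := by
    intro w h1 h2 h3
    have e1 : (w + t * I).re = w.re := by simp
    have e2 : (w + t * I).im - t = w.im := by simp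
    obtain ⟨h4, h5⟩ := hD (w + t * I) (by rw [e1]; exact h1) (by rw [e1]; exact h2)
      (by rw [e2]; exact h3)
    constructor
    · rw [hGdef]
      refine ((hΓdiff w (by linarith)).mul ?_).mul ?_
      · exact DifferentiableAt.const_cpow differentiableAt_id (Or.inl hNc)
      · exact DifferentiableAt.comp w h4 (by fun_prop)
    · rw [hGdef]
      simp only
      rw [norm_mul, norm_mul, Complex.norm_cpow_eq_rpow_re_of_pos hN0]
      have h6 := hG w.re w.im (by linarith) (by linarith)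
      rw [Complex.re_add_im] at h6
      gcongr
  have hrect := Complex.integral_boundary_rect_eq_zero_of_differentiableOn G
    ((x : ℂ) + ((-U : ℝ) : ℂ) * I) ((2 : ℂ) + (U : ℂ) * I) (by
      intro w hw
      rw [Complex.mem_reProdIm] at hw
      obtain ⟨hw1, hw2⟩ := hw
      have e1 : ((x : ℂ) + ((-U : ℝ) : ℂ) * I).re = x := by simp
      have e2 : ((2 : ℂ) + (U : ℂ) * I).re = 2 := by simp
      have e3 : ((x : ℂ) + ((-U : ℝ) : ℂ) * I).im = -U := by simp
      have e4 : ((2 : ℂ) + (U : ℂ) * I).im = U := by simp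
      rw [e1, e2, uIcc_of_le hx2] at hw1
      rw [e3, e4, uIcc_of_le (by linarith)] at hw2
      exact (hGd w hw1.1 hw1.2 (abs_le.2 ⟨hw2.1, hw2.2⟩)).1.differentiableWithinAt)
  have e1 : ((x : ℂ) + ((-U : ℝ) : ℂ) * I).re = x := by simp
  have e2 : ((2 : ℂ) + (U : ℂ) * I).re = 2 := by simp
  have e3 : ((x : ℂ) + ((-U : ℝ) : ℂ) * I).im = -U := by simp
  have e4 : ((2 : ℂ) + (U : ℂ) * I).im = U := by simp
  rw [e1, e2, e3, e4] at hrect
  -- names of the four sides
  set A1 : ℂ := ∫ y in x..2, G ((y : ℂ) + ((-U : ℝ) : ℂ) * I) with hA1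
  set A2 : ℂ := ∫ y in x..2, G ((y : ℂ) + (U : ℂ) * I) with hA2
  set A3 : ℂ := ∫ y in (-U)..U, G (((2 : ℝ) : ℂ) + (y : ℂ) * I) with hA3
  set A4 : ℂ := ∫ y in (-U)..U, G ((x : ℂ) + (y : ℂ) * I) with hA4
  have hmid : ∫ u in (-U)..U, f u = A3 := by
    rw [hA3]
    apply intervalIntegral.integral_congr
    intro u hu
    rw [hf, hGdef]
    simp only
    have h1 : D (((2 : ℝ) : ℂ) + (u : ℂ) * I + t * I) = Ds a ((2 : ℂ) + (t + u) * I) := by
      rw [hD2 _ (by simp)]
      congr 1
      push_cast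
      ring
    rw [h1]
    push_cast
    rfl
  have hA3le : ‖A3‖ ≤ ‖A1‖ + ‖A2‖ + ‖A4‖ := by
    have h1 : I • A3 = A2 - A1 + I • A4 := by
      have := hrect
      rw [sub_eq_zero] at this
      rw [← this]
      ring
    have h2 : ‖I • A3‖ = ‖A3‖ := by
      rw [norm_smul, Complex.norm_I, one_mul]
    rw [← h2, h1]
    refine (norm_add_le _ _).trans ?_
    have h3 : ‖I • A4‖ = ‖A4‖ := by
      rw [norm_smul, Complex.norm_I, one_mul]
    rw [h3]
    have h4 := norm_sub_le A2 A1
    linarith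
  have hhor : ∀ v : ℝ, |v| = U → ∀ y ∈ uIoc x 2, ‖G ((y : ℂ) + (v : ℂ) * I)‖ ≤
      C * Real.exp (-U) * N ^ 2 * V := by
    intro v hv y hy
    rw [uIoc_of_le hx2] at hy
    have e1 : ((y : ℂ) + (v : ℂ) * I).re = y := by simp
    have e2 : ((y : ℂ) + (v : ℂ) * I).im = v := by simp
    have h1 := (hGd ((y : ℂ) + (v : ℂ) * I) (by rw [e1]; exact hy.1.le) (by rw [e1]; exact hy.2)
      (by rw [e2, hv])).2
    rw [e1, e2, hv] at h1
    refine h1.trans ?_
    have h2 : N ^ y ≤ N ^ (2 : ℝ) := Real.rpow_le_rpow_of_exponent_le hN hy.2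
    have h3 : N ^ (2 : ℝ) = N ^ 2 := by norm_cast
    rw [h3] at h2
    gcongr
  have hA1le : ‖A1‖ ≤ C * Real.exp (-U) * N ^ 2 * V * 2 := by
    have h1 := intervalIntegral.norm_integral_le_of_norm_le_const
      (hhor (-U) (by rw [abs_neg, abs_of_nonneg hU0]))
    refine h1.trans ?_
    have h2 : |2 - x| ≤ 2 := by
      rw [abs_of_nonneg (by linarith)]
      linarith
    gcongr
  have hA2le : ‖A2‖ ≤ C * Real.exp (-U) * N ^ 2 * V * 2 := by
    have h1 := intervalIntegral.norm_integral_le_of_norm_le_const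
      (hhor U (abs_of_nonneg hU0))
    refine h1.trans ?_
    have h2 : |2 - x| ≤ 2 := by
      rw [abs_of_nonneg (by linarith)]
      linarith
    gcongr
  have hA4le : ‖A4‖ ≤ C * N ^ x * V * 2 := by
    have h1 : ‖A4‖ ≤ ∫ u in (-U)..U, C * N ^ x * V * Real.exp (-|u|) := by
      apply intervalIntegral.norm_integral_le_of_norm_le (by linarith)
      · refine Filter.Eventually.of_forall fun y hy => ?_
        have e1 : ((x : ℂ) + (y : ℂ) * I).re = x := by simp
        have e2 : ((x : ℂ) + (y : ℂ) * I).im = y := by simp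
        have h1 := (hGd ((x : ℂ) + (y : ℂ) * I) (by rw [e1]) (by rw [e1]; exact hx2)
          (by rw [e2]; exact abs_le.2 ⟨hy.1.le, hy.2⟩)).2
        rw [e1, e2] at h1
        refine h1.trans (le_of_eq ?_)
        ring
      · exact (helper2_exp_neg_abs.const_mul _).intervalIntegrable
    rw [intervalIntegral.integral_const_mul] at h1
    refine h1.trans ?_
    have h2 := helper2_int_mid U hU0
    have h3 : 0 ≤ C * N ^ x * V := by positivity
    exact mul_le_mul_of_nonneg_left h2 h3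
  -- the total
  have htot : ‖∫ u : ℝ, f u‖ ≤ 4 * C * (N ^ x * V + N ^ 2 * (V + W) * Real.exp (-U)) := by
    rw [hsplit]
    refine (norm_add_le _ _).trans ?_
    have h1 := norm_add_le (∫ u in (-U)..U, f u) (∫ u in Ioi U, f u)
    rw [hmid] at h1 ⊢
    have h2 : 0 ≤ C * (N ^ x * V) := by positivity
    have h3 : 0 ≤ C * N ^ 2 * W * Real.exp (-U) := by positivity
    have h4 : 4 * C * (N ^ x * V + N ^ 2 * (V + W) * Real.exp (-U)) =
      4 * (C * (N ^ x * V)) + 4 * (C * Real.exp (-U) * N ^ 2 * V) +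
        4 * (C * N ^ 2 * W * Real.exp (-U)) := by ring
    rw [h4]
    have h5 : C * N ^ x * V * 2 = 2 * (C * (N ^ x * V)) := by ring
    rw [h5] at hA4le
    linarith
  rw [hS, norm_mul]
  have hpi : ‖(1 / (2 * (Real.pi : ℂ)))‖ ≤ 1 := by
    rw [norm_div, norm_one, norm_mul, Complex.norm_real, Real.norm_eq_abs,
      abs_of_pos Real.pi_pos]
    rw [div_le_one (by simp [Real.pi_pos])]
    have := Real.pi_gt_three
    have h2 : ‖(2 : ℂ)‖ = 2 := by simp
    rw [h2]
    linarith
  have h0 : 0 ≤ ‖∫ u : ℝ, f u‖ := norm_nonneg _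
  calc ‖(1 / (2 * (Real.pi : ℂ)))‖ * ‖∫ u : ℝ, f u‖ ≤ 1 * ‖∫ u : ℝ, f u‖ := by gcongr
    _ = ‖∫ u : ℝ, f u‖ := one_mul _
    _ ≤ _ := htot

end Pool.Agent.EQ
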